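import Pool.Agent.H40.Sob

open Pool.Agent.H40.Sob in
theorem Pool.Agent.Results.MP_0a3202_lc.NotConvex.result :
    (∃ (N : Type) (_ : LF.Structure N), IsExt N) ∧
    ∀ (N : Type) [LF.Structure N], IsExt N → ∃ F : Ultrafilter ℕ, {n | 0 < n} ∈ F ∧
      ∃ x ∈ (Mon F : Set N), ∃ y ∈ (Mon F : Set N), ∃ z ∈ (St1 {n | 0 < n} : Set N),
        NDvd x z ∧ NDvd z y ∧ z ∉ Mon F :=
  ⟨exExt, fun _ _ => nonconvex⟩
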